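import Pool.Agent.Run7.h461.SChain

/-!
# MP_c084f5_al : (3) implies (2) when `n - 2` generators form a chain with step `α` or `-α`

`InH a x` says that the integer `x` lies in `H = ⟨a_1, …, a_n⟩`, `IsMinGen a` that the `a_i` are the
minimal generators of a numerical semigroup, and `IsAP a h α` that `α > 0` and
`PF(H) = {h + α, …, h + (n-1) α}`. `Cond2 k a` is condition (2) of the problem.
-/

namespace Pool.Agent.Results.MP_c084f5_al.ChainOfGenerators

open Q122.DetNS Run7.H461.SCorner Run7.H461.SChain

universe u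

/-- Let `n ≥ 3`, let `a_1, …, a_n` be the minimal generators of a numerical semigroup `H` and let
`PF(H) = {h + α, …, h + (n-1) α}`, `α > 0`. Suppose that there are generators
`b_0, …, b_{n-3}` of `H` with `b_i + α - b_{i+1} ∈ H` for all `i < n - 3`, or with
`b_i - α - b_{i+1} ∈ H` for all `i < n - 3`. Then condition (2) holds over every field. For
`n = 4` the hypothesis says that `a_j + α ∈ H` or `a_j - α ∈ H` for some `j`. -/
theorem result :
    ∀ (k : Type u) [Field k] (n : ℕ) (a : Fin n → ℕ) (h α : ℤ), 3 ≤ n → IsMinGen a →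
      IsAP a h α →
      ((∃ κ : ℕ → Fin n, ∀ i, i < n - 3 → InH a (a (κ i) + α - a (κ (i + 1)))) ∨
        (∃ κ : ℕ → Fin n, ∀ i, i < n - 3 → InH a (a (κ i) - α - a (κ (i + 1))))) →
      Cond2 k a := by
  intro k _ n a h α hn ha hAP hex
  rcases hex with ⟨κ, hκ⟩ | ⟨κ, hκ⟩
  · exact caseB hn ha hAP (chain hn ha (gd_up hn ha hAP) κ hκ) k
  · exact Pool.Agent.Run7.h37.DN.caseDown hn ha hAP
      (chain hn ha (gd_down hn ha hAP) κ (fun i hi => by
        have h1 := hκ i hi
        rw [sub_eq_add_neg (a (κ i) : ℤ) α] at h1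
        exact h1)) k

end Pool.Agent.Results.MP_c084f5_al.ChainOfGenerators
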