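import Pool.Agent.Run7.h37.DN.Down
import Pool.Agent.Run7.h37.DN.Corner

/-!
# MP_c084f5_al : (3) implies (1) and (2) under conditions on `H + α`

`Cond1 k a` and `Cond2 k a` are the conditions (1) and (2) of the problem for the semigroup
`H = ⟨a_1, …, a_n⟩` and the field `k`; `IsAP a h α` says `PF(H) = {h + α, …, h + (n-1) α}` and
`α > 0`, so condition (3) is `∃ h α, IsAP a h α`. A generator `a_c` divides `x` if `x - a_c ∈ H`.

The combinatorial core (`Pool.Agent.Run7.h37.DN.Corner`) is the proof of helper461 for `+ α`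
(file `CornerOffOneLetter`), written for both signs.
-/

namespace Pool.Agent.Results.MP_c084f5_al.CornerBelow

open Q122.DetNS Pool.Agent.Run7.h37.DN Pool.Agent.Run7.h37.DN.Corner

universe u

/-- At most two elements: contained in a set of two different elements. -/
theorem two_of_ncard {n : ℕ} (hn : 3 ≤ n) {S : Set (Fin n)} (hS : S.ncard ≤ 2) :
    ∃ i j : Fin n, i ≠ j ∧ ∀ c ∈ S, c = i ∨ c = j := by
  have hnt : Nontrivial (Fin n) := Fin.nontrivial_iff_two_le.mpr (by omega)
  rcases Nat.lt_or_ge S.ncard 1 with h0 | h0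
  · have : S = ∅ := (Set.ncard_eq_zero (Set.toFinite S)).mp (by omega)
    obtain ⟨i, j, hij⟩ := exists_pair_ne (Fin n)
    exact ⟨i, j, hij, by simp [this]⟩
  · rcases Nat.lt_or_ge S.ncard 2 with h1 | h1
    · obtain ⟨i, hi⟩ := Set.ncard_eq_one.mp (show S.ncard = 1 by omega)
      obtain ⟨j, hj⟩ := exists_ne i
      refine ⟨i, j, hj.symm, ?_⟩
      intro c hc
      rw [hi] at hc
      exact Or.inl hc
    · obtain ⟨i, j, hij, hS2⟩ := Set.ncard_eq_two.mp (show S.ncard = 2 by omega)
      refine ⟨i, j, hij, ?_⟩
      intro c hc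
      rw [hS2] at hc
      simpa using hc

/-- Let `n ≥ 3`, let `a_1, …, a_n` be the minimal generators of a numerical semigroup `H` and let
`PF(H) = {h + α, …, h + (n-1) α}` with `α > 0`. Suppose that one of the following holds.

(A) For some `i` there are `c_j ≥ 0` (`j ≠ i`) with `(c_j + 1) a_j - α ∈ H` for all `j ≠ i` and
`∑_{j ≠ i} c_j a_j - α ∉ H`.

(B) At most two of the generators divide `h + n α`.

(C) `h + n α` has exactly one factorization.

Then the conditions (1) and (2) hold, over every field. -/
theorem result :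
    ∀ (k : Type u) [Field k] (n : ℕ) (a : Fin n → ℕ) (h α : ℤ), 3 ≤ n → IsMinGen a →
      IsAP a h α →
      ((∃ (i : Fin n) (c : Fin n → ℕ),
          (∀ j, j ≠ i → InH a (((c j + 1 : ℕ) : ℤ) * a j - α)) ∧
          ¬ InH a (∑ j ∈ Finset.univ.erase i, (c j : ℤ) * a j - α)) ∨
        {c : Fin n | InH a (h + n * α - a c)}.ncard ≤ 2 ∨
        (∃! v : Fin n → ℕ, h + n * α = ∑ i, (v i : ℤ) * a i)) →
      Cond1 k a ∧ Cond2 k a := by
  classical
  intro k _ n a h α hn ha hAP hcase
  have hpos : ∀ c, 0 < a c := fun c => (ha.2 c).1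
  have D := dir_down hn ha.1 hAP
  have key : Cond2 k a := by
    rcases hcase with ⟨i, c, hc, hX⟩ | h1 | h1
    · have hS : S a (Function.update c i 0) =
          ∑ j ∈ Finset.univ.erase i, (c j : ℤ) * a j := by
        unfold S
        rw [← Finset.add_sum_erase _ _ (Finset.mem_univ i)]
        rw [Function.update_self]
        have h1 : ∑ j ∈ Finset.univ.erase i, ((Function.update c i 0 j : ℕ) : ℤ) * a j =
            ∑ j ∈ Finset.univ.erase i, (c j : ℤ) * a j := by
          refine Finset.sum_congr rfl ?_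
          intro j hj
          rw [Function.update_of_ne (Finset.ne_of_mem_erase hj)]
        rw [h1]; simp
      refine caseDown hn ha hAP (core hn ha D i (Function.update c i 0)
        (Function.update_self _ _ _) ?_ ?_) k
      · intro j hj
        rw [Function.update_of_ne hj]
        exact hc j hj
      · rw [hS]; exact hX
    · obtain ⟨i, j, hij, hA⟩ := two_of_ncard hn h1
      exact caseDown hn ha hAP (uniq D hpos hij hn hA) k
    · exact caseDown hn ha hAP h1 k
  exact ⟨(cond1_iff_cond2 hpos).mpr key, key⟩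

end Pool.Agent.Results.MP_c084f5_al.CornerBelow
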