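import Pool.Agent.Run7.h461.DetCorner

/-!
# MP_c084f5_al : (3) implies (2) as soon as the box of all but one generator avoids `H - α`

`InH a x` says that the integer `x` lies in `H = ⟨a_1, …, a_n⟩`, `IsMinGen a` that the `a_i` are the
minimal generators of a numerical semigroup, and `IsAP a h α` that `α > 0` and
`PF(H) = {h + α, …, h + (n-1) α}`. `Cond2 k a` is condition (2) of the problem.
-/

namespace Pool.Agent.Results.MP_c084f5_al.CornerOffOneLetter

open Q122.DetNS Run7.H461.DetCorner

universe u

/-- Let `n ≥ 3`, let `a_1, …, a_n` be the minimal generators of a numerical semigroup `H` and let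
`PF(H) = {h + α, …, h + (n-1) α}`, `α > 0`. Suppose that for some `i` there are `c_j ≥ 0`
(`j ≠ i`) with `(c_j + 1) a_j + α ∈ H` for all `j ≠ i` and `∑_{j ≠ i} c_j a_j + α ∉ H`. Then
condition (2) holds over every field. -/
theorem result :
    ∀ (k : Type u) [Field k] (n : ℕ) (a : Fin n → ℕ) (h α : ℤ), 3 ≤ n → IsMinGen a →
      IsAP a h α →
      (∃ (i : Fin n) (c : Fin n → ℕ),
        (∀ j, j ≠ i → InH a (((c j + 1 : ℕ) : ℤ) * a j + α)) ∧
        ¬ InH a (∑ j ∈ Finset.univ.erase i, (c j : ℤ) * a j + α)) →
      Cond2 k a := by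
  classical
  intro k _ n a h α hn ha hAP hex
  obtain ⟨i, c, hc, hX⟩ := hex
  have hS : S a (Function.update c i 0) = ∑ j ∈ Finset.univ.erase i, (c j : ℤ) * a j := by
    unfold S
    rw [← Finset.add_sum_erase _ _ (Finset.mem_univ i)]
    rw [Function.update_self]
    have h1 : ∑ j ∈ Finset.univ.erase i, ((Function.update c i 0 j : ℕ) : ℤ) * a j =
        ∑ j ∈ Finset.univ.erase i, (c j : ℤ) * a j := by
      refine Finset.sum_congr rfl ?_
      intro j hj
      rw [Function.update_of_ne (Finset.ne_of_mem_erase hj)]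
    rw [h1]; simp
  refine caseB hn ha hAP (core hn ha hAP i (Function.update c i 0) (Function.update_self _ _ _)
    ?_ ?_) k
  · intro j hj
    rw [Function.update_of_ne hj]
    exact hc j hj
  · rw [hS]; exact hX

end Pool.Agent.Results.MP_c084f5_al.CornerOffOneLetter
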